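import Pool.Agent.Helper19_TP.Fin

/-!
Solvability of varieties of alternative algebras with nilpotent associative members over every
field of characteristic different from 2 and 3 (positive characteristics from 5 on included).

Proof. If the variety is not solvable, it contains a relatively free algebra `B` which is T-prime
and not solvable. Nilpotency of the associative members gives closure rules in `B`: the nucleus is
zero and nothing annihilates the associator ideal. In the calculus of the commutator and the
Jordan product of `B`, and in all its Grassmann extensions, these rules force in turn a central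
element of degree (2,2,2), an element of degree (3,2), an element of degree (3,1) and finally the
associator to vanish; each step is a linear algebra certificate checked by a verified checker.
-/

set_option autoImplicit false

namespace Pool.Agent.Results.MP_ce3ba7_al.CharNotTwoThree

/-- Let `F` be a field of characteristic different from 2 and 3, and let `S` be a set of
identities. If every associative alternative algebra satisfying `S` is nilpotent, then there is
`n` such that every alternative algebra satisfying `S` is solvable of index at most `n`. -/
theorem result :
    ∀ (F : Type) [Field F], (2 : F) ≠ 0 → (3 : F) ≠ 0 →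
      ∀ (S : Set (MonoidAlgebra F (FreeMagma ℕ))),
      (∀ (A : Type) [NonUnitalNonAssocRing A] [Module F A] [IsScalarTower F A A]
          [SMulCommClass F A A],
          (∀ x y : A, (x * x) * y = x * (x * y)) →
          (∀ x y : A, (y * x) * x = y * (x * x)) →
          (∀ f ∈ S, ∀ φ : ℕ → A, MonoidAlgebra.liftMagma F (FreeMagma.lift φ) f = 0) →
          (∀ x y z : A, (x * y) * z = x * (y * z)) →
          ∃ n : ℕ, ∃ V : ℕ → Submodule F A, V 0 = ⊤ ∧
            (∀ i j : ℕ, ∀ x ∈ V i, ∀ y ∈ V j, x * y ∈ V (i + j + 1)) ∧ V n = ⊥) →
      ∃ n : ℕ, ∀ (A : Type) [NonUnitalNonAssocRing A] [Module F A] [IsScalarTower F A A]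
          [SMulCommClass F A A],
          (∀ x y : A, (x * x) * y = x * (x * y)) →
          (∀ x y : A, (y * x) * x = y * (x * x)) →
          (∀ f ∈ S, ∀ φ : ℕ → A, MonoidAlgebra.liftMagma F (FreeMagma.lift φ) f = 0) →
          ∃ V : ℕ → Submodule F A, V 0 = ⊤ ∧
            (∀ k : ℕ, ∀ x ∈ V k, ∀ y ∈ V k, x * y ∈ V (k + 1)) ∧ V n = ⊥ :=
  fun F _ h2 h3 S hS => Pool.Agent.TP.fin F h2 h3 S hS

end Pool.Agent.Results.MP_ce3ba7_al.CharNotTwoThree
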